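import Pool.Agent.helper83.ORE.SpecDE

/-!
# Project ore (MP_561ff4_al), row DBL: long root elements, also degenerate
-/

set_option autoImplicit false

namespace Pool.Agent.ORE

open Module Pool.Agent.GS

noncomputable section

theorem DBL : DBL_stmt := by
  intro F V _ _ _ Q h2 y c hbl u d hu hd hud
  by_cases hu0 : u = 0
  · have h1 : sq Q u d = 1 := by
      ext x
      rw [sq_apply h2 hu hud, hu0, hd, zero_mul, zero_smul, smul_zero, map_zero, zero_smul]
      simp
    rw [h1]
    exact Gq.one c
  · by_cases h : ∃ a : F, a • u = d
    · obtain ⟨a, rfl⟩ := h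
      have h1 : sq Q u (a • u) = 1 := by
        ext x
        rw [sq_apply h2 hu hud, hd, zero_mul, zero_smul, add_zero, map_smul, smul_eq_mul,
          smul_smul, mul_comm a, add_assoc, addV h2, add_zero]
        rfl
      rw [h1]
      exact Gq.one c
    · push Not at h
      exact hbl u d ((LinearIndependent.pair_iff' hu0).2 h) hu hd hud

end

end Pool.Agent.ORE
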