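import Pool.Agent.helper53.ORE.Spec

/-!
# Project ore (MP_561ff4_al), row RP: products of two transvections
-/

set_option autoImplicit false

namespace Pool.Agent.ORE

open Module Pool.Agent.GS

noncomputable section

theorem RP (st : ST1_stmt) : RP_stmt := by
  intro F V _ _ _ _ _ Q h2 hQ hd a b ha hb
  have hchar : ringChar F = 2 := by
    have := charP2 h2
    exact ringChar.eq F 2 ▸ rfl
  obtain ⟨s, hs⟩ := FiniteField.isSquare_of_char_two hchar (Q a / Q b)
  have hs0 : s ≠ 0 := by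
    intro h
    rw [h, mul_zero] at hs
    exact (div_ne_zero ha hb) hs
  have hQb : Q a = Q (s • b) := by
    rw [Q_smul, pow_two, ← hs, div_mul_cancel₀ _ hb]
  have hrb : rq Q (s • b) = rq Q b := rq_smul hs0 b
  have hne : ∀ x : V, Q x ≠ 0 → ∀ c : F, x ≠ c • (0 : V) := by
    intro x hx c h
    apply hx
    rw [h, smul_zero, Q_zero]
  obtain ⟨g, hg, -, hga⟩ := st Q h2 hQ hd 0 a (s • b) (hne a ha)
    (hne _ (by rw [← hQb]; exact ha)) hQb (by rw [map_zero, map_zero])
  have hgO : g ∈ OQ Q := by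
    have hle : Subgroup.closure (Set.range (rq Q)) ≤ OQ Q := by
      rw [Subgroup.closure_le]
      rintro _ ⟨x, rfl⟩
      exact rq_mem Q x
    exact hle hg
  have hconj : g * rq Q a * g⁻¹ = rq Q b := by
    rw [rq_conj_mem hgO, hga, hrb]
  have h3 : rq Q a * g * (rq Q a)⁻¹ * g⁻¹ ∈ OmQ Q :=
    Subgroup.commutator_mem_commutator (rq_mem Q a) hgO
  rw [rq_inv, mul_assoc, mul_assoc, ← mul_assoc g, hconj] at h3
  exact h3

end

end Pool.Agent.ORE
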