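import Pool.Agent.helper53.ORE.Spec
import Pool.Agent.helper36.ORT.KDB

/-!
# Project ore (MP_561ff4_al), row KDQ: the field attached to an element of order `r`
-/

set_option autoImplicit false

namespace Pool.Agent.ORE

open Module Pool.Agent.GS Polynomial

noncomputable section

theorem KDQ (ka : KAQ_stmt) (kdp : ORT.KDP_stmt) (bf' : GS.BF_stmt) : KDQ_stmt := by
  intro F V _ _ _ _ _ Q h2 hQ k hk r hr hr2 hkr hk1
  obtain ⟨S, U, hS, hU0, hkU, hfix, hnd, hdich⟩ := ka Q h2 hQ k hk r hr hr2 hkr hk1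
  obtain ⟨G, hG3, hGm, hG⟩ := kdp
  have hkL : Lin F k := hk.1
  have hk' : k⁻¹ ∈ OQ Q := (OQ Q).inv_mem hk
  have hkL' : Lin F k⁻¹ := hk'.1
  -- `k⁻¹` as an adjoint
  have hadj : ∀ u w, pb Q (k u) w = pb Q u (k⁻¹ w) := by
    intro u w
    rw [← OQ_pb hk u (k⁻¹ w), pinv]
  have hadj' : ∀ u w, pb Q (k⁻¹ u) w = pb Q u (k w) := by
    intro u w
    rw [← OQ_pb hk (k⁻¹ u) w, pinv]
  have hSadj : ∀ u w, pb Q (S u) w = pb Q u (S w) := by
    intro u w
    rw [hS, hS, map_add, map_add, LinearMap.add_apply, hadj, hadj', add_comm]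
  have hSk : ∀ u, k (S u) = S (k u) := by
    intro u
    rw [hS, hS, hkL.1, pinv, invp]
  -- `r = 2 n + 1`
  obtain ⟨n, hn⟩ : ∃ n, r = 2 * n + 1 := by
    rcases hr.eq_two_or_odd' with h | ⟨n, h⟩
    · exact absurd h hr2
    · exact ⟨n, h⟩
  -- `k⁻¹` maps `U` to `U`
  have hkpowU : ∀ (m : ℕ), ∀ u ∈ U, (k ^ m) u ∈ U := by
    intro m
    induction m with
    | zero => intro u hu; rw [pow_zero]; exact hu
    | succ m ih => intro u hu; rw [pow_succ', Equiv.Perm.mul_apply]; exact hkU _ (ih u hu)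
  have hkinv : k⁻¹ = k ^ (r - 1) := by
    have h1 : k * k ^ (r - 1) = 1 := by
      rw [← pow_succ', show r - 1 + 1 = r by omega, hkr]
    exact inv_eq_of_mul_eq_one_right h1
  have hSU : ∀ u ∈ U, S u ∈ U := by
    intro u hu
    rw [hS, hkinv]
    exact U.add_mem (hkU u hu) (hkpowU _ u hu)
  have hrv : ∀ u, (k ^ r) u = u := by
    intro u
    rw [hkr]
    rfl
  -- `S u = 0` implies `u = 0`
  have hSinj : ∀ u ∈ U, S u = 0 → u = 0 := by
    intro u hu h
    apply hfix u hu
    rw [hS] at h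
    have h3 : k u = k⁻¹ u := eq_of_addV h2 h
    have h4 : (k ^ 2) u = u := by
      rw [pow_two, Equiv.Perm.mul_apply, h3, pinv]
    have h5 : ∀ m : ℕ, (k ^ (2 * m)) u = u := by
      intro m
      induction m with
      | zero => rfl
      | succ m ih =>
        rw [show 2 * (m + 1) = 2 * m + 2 by ring, pow_add, Equiv.Perm.mul_apply, h4, ih]
    have h6 := hrv u
    rw [hn, pow_succ', Equiv.Perm.mul_apply, h5 n] at h6
    exact h6
  -- a vector with `B(k v, v) ≠ 0`
  obtain ⟨v, hvU, hv⟩ : ∃ v ∈ U, pb Q (k v) v ≠ 0 := by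
    by_contra hcon
    push Not at hcon
    apply hU0
    rw [Submodule.eq_bot_iff]
    intro u hu
    apply hSinj u hu
    refine hnd _ (hSU u hu) fun w hw => ?_
    have h1 := hcon (u + w) (U.add_mem hu hw)
    rw [hkL.1, map_add, map_add, LinearMap.add_apply, LinearMap.add_apply, hcon u hu, hcon w hw,
      zero_add, add_zero] at h1
    have h3 : pb Q (k w) u = pb Q (k⁻¹ u) w := by
      rw [hadj, pb_symm]
    rw [hS, map_add, LinearMap.add_apply, ← h3, add_comm]
    exact h1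
  have hv0 : v ≠ 0 := by
    intro h
    apply hv
    rw [h]
    simp
  -- the minimal polynomial
  let SU : U →ₗ[F] U := S.restrict hSU
  have hint : IsIntegral F SU := Algebra.IsIntegral.isIntegral SU
  obtain ⟨f, hf⟩ : ∃ f : F[X], f = minpoly F SU := ⟨_, rfl⟩
  have hmon : f.Monic := by rw [hf]; exact minpoly.monic hint
  have hzero : ∀ p : F[X], (∀ u ∈ U, aeval S p u = 0) → f ∣ p := by
    intro p hp
    rw [hf]
    apply minpoly.dvd
    apply LinearMap.ext
    intro u
    apply Subtype.ext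
    rw [ORT.KDB_res S U hSU p u, hp u u.2]
    rfl
  have hfU : ∀ u ∈ U, aeval S f u = 0 := by
    intro u hu
    have h1 := ORT.KDB_res S U hSU f ⟨u, hu⟩
    rw [← h1]
    have h2 : aeval (S.restrict hSU) f = 0 := by rw [hf]; exact minpoly.aeval F SU
    rw [h2]
    rfl
  have hdv : ∀ p : F[X], aeval S p v = 0 → f ∣ p := by
    intro p hp
    rcases hdich p with h | h
    · exact hzero p h
    · exact absurd (h v hvU hp) hv0
  have hmul : ∀ (p q : F[X]) (u : V), aeval S (p * q) u = aeval S p (aeval S q u) := by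
    intro p q u
    rw [map_mul, Module.End.mul_apply]
  have hdvd0 : ∀ p : F[X], f ∣ p → ∀ u ∈ U, aeval S p u = 0 := by
    rintro p ⟨q, rfl⟩ u hu
    rw [hmul]
    exact hfU _ (ORT.KDB_maps S U hSU q u hu)
  have hnu : ¬ IsUnit f := by
    intro h
    have h1 : f ∣ 1 := h.dvd
    have h2 := hdvd0 1 h1 v hvU
    rw [map_one] at h2
    exact hv0 h2
  have hirr : Irreducible f := by
    have hpr : Prime f := by
      refine ⟨hmon.ne_zero, hnu, fun a b hab => ?_⟩
      rcases hdich a with h | h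
      · exact Or.inl (hzero a h)
      · right
        apply hzero b
        intro u hu
        apply h _ (ORT.KDB_maps S U hSU b u hu)
        rw [← hmul]
        exact hdvd0 _ hab u hu
    exact hpr.irreducible
  have : Fact (Irreducible f) := ⟨hirr⟩
  let pb' : PowerBasis F (AdjoinRoot f) := AdjoinRoot.powerBasis hmon.ne_zero
  have hfd : FiniteDimensional F (AdjoinRoot f) := pb'.finite
  have hfin : Finite (AdjoinRoot f) := Module.finite_of_finite F
  have hrank : finrank F (AdjoinRoot f) = f.natDegree := by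
    rw [pb'.finrank]
    rfl
  let σ : AdjoinRoot f := AdjoinRoot.root f
  let j : AdjoinRoot f →ₗ[F] V :=
    (LinearMap.applyₗ v).comp ((aeval S).toLinearMap.comp (AdjoinRoot.modByMonicHom hmon))
  have hj : ∀ p : F[X], j (AdjoinRoot.mk f p) = aeval S p v := by
    intro p
    have h1 : j (AdjoinRoot.mk f p) = aeval S (p %ₘ f) v := by
      show aeval S (AdjoinRoot.modByMonicHom hmon (AdjoinRoot.mk f p)) v = _
      rw [AdjoinRoot.modByMonicHom_mk]
    have h2 : aeval S p v = aeval S (p %ₘ f) v + aeval S (f * (p /ₘ f)) v := by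
      rw [← LinearMap.add_apply, ← map_add, modByMonic_add_div p f]
    rw [h1, h2, hdvd0 _ (dvd_mul_right _ _) v hvU, add_zero]
  have hjU : ∀ c, j c ∈ U := by
    intro c
    obtain ⟨p, rfl⟩ := AdjoinRoot.mk_surjective c
    rw [hj]
    exact ORT.KDB_maps S U hSU p v hvU
  have hSj : ∀ c, S (j c) = j (σ * c) := by
    intro c
    obtain ⟨p, rfl⟩ := AdjoinRoot.mk_surjective c
    have h1 : σ * AdjoinRoot.mk f p = AdjoinRoot.mk f (X * p) := by
      rw [map_mul, AdjoinRoot.mk_X]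
    rw [h1, hj, hj, hmul, aeval_X]
  -- the functional
  let l : AdjoinRoot f →ₗ[F] F := (pb Q (k v)).comp j
  have hl : ∀ c, l c = pb Q (k v) (j c) := fun c => rfl
  obtain ⟨β, hβ⟩ := ORT.KDB_tr ((bf' (F := F) (K := AdjoinRoot f)).1 1 one_ne_zero) l
  have hj1 : j 1 = v := by
    have h1 : (1 : AdjoinRoot f) = AdjoinRoot.mk f 1 := (map_one _).symm
    rw [h1, hj, map_one]
    rfl
  have hβ0 : β ≠ 0 := by
    intro h
    have h1 := hβ 1
    rw [h, zero_mul, map_zero, hl, hj1] at h1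
    exact hv h1
  have hadjp := ORT.KDB_adj (pb Q) S hSadj
  have hcomm := ORT.KDB_comm k hkL S hSk
  -- `B(k j c, j c') = tr(β c c')`
  have hf1 : ∀ c c', pb Q (k (j c)) (j c') = Algebra.trace F (AdjoinRoot f) (β * c * c') := by
    intro c c'
    obtain ⟨p, rfl⟩ := AdjoinRoot.mk_surjective c
    obtain ⟨p', rfl⟩ := AdjoinRoot.mk_surjective c'
    rw [mul_assoc, ← hβ, hl, ← map_mul, hj, hj, hj, hcomm, hadjp, hmul]
  -- `σ ≠ 0`
  have hσ0 : σ ≠ 0 := by
    intro h
    have h1 := hSj 1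
    rw [hj1, h, zero_mul, map_zero] at h1
    exact hv0 (hSinj v hvU h1)
  -- `Q (S w) = B(k w, S w)`
  have hQS : ∀ w, Q (S w) = pb Q (k w) (S w) := by
    intro w
    have h3 : S w = k w + k⁻¹ w := hS w
    have h4 : Q (S w) = Q (k w) + Q (k⁻¹ w) + pb Q (k w) (k⁻¹ w) := by
      rw [h3, Q_add]
    rw [h4, hk.2, hk'.2, add2 h2, zero_add]
    have h5 : pb Q (k w) (S w) = pb Q (k w) (k w) + pb Q (k w) (k⁻¹ w) := by
      rw [h3, map_add]
    rw [h5, pb_self2 h2, zero_add]
  have hQj : ∀ c, Q (j (σ * c)) = Algebra.trace F (AdjoinRoot f) (β * σ * c ^ 2) := by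
    intro c
    rw [← hSj, hQS, hSj, hf1]
    congr 1
    ring
  have h2K : (2 : AdjoinRoot f) = 0 := by
    have : (2 : AdjoinRoot f) = algebraMap F (AdjoinRoot f) 2 := by rw [map_ofNat]
    rw [this, h2, map_zero]
  have hcharK : ringChar (AdjoinRoot f) = 2 := by
    have := charP2 h2K
    exact ringChar.eq (AdjoinRoot f) 2 ▸ rfl
  obtain ⟨γ, hγ⟩ := FiniteField.isSquare_of_char_two hcharK (β / σ)
  have hγ0 : γ ≠ 0 := by
    intro h
    rw [h, mul_zero] at hγ
    exact (div_ne_zero hβ0 hσ0) hγ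
  refine ⟨AdjoinRoot f, inferInstance, inferInstance, hfin, hfd, σ,
    j.comp (LinearMap.mulLeft F γ⁻¹), ⟨hσ0, AdjoinRoot.adjoinRoot_eq_top, ?_, ?_, ?_⟩, ?_⟩
  · -- `s`
    intro c
    simp only [LinearMap.comp_apply, LinearMap.mulLeft_apply]
    rw [← hS, hSj]
    congr 1
    ring
  · -- `q`
    intro c
    simp only [LinearMap.comp_apply, LinearMap.mulLeft_apply]
    have h3 : γ⁻¹ * c = σ * (σ⁻¹ * (γ⁻¹ * c)) := by
      rw [← mul_assoc σ, mul_inv_cancel₀ hσ0, one_mul]
    rw [h3, hQj]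
    congr 1
    have h4 : β = γ * γ * σ := by
      rw [← hγ, div_mul_cancel₀ _ hσ0]
    rw [h4]
    field_simp
  · -- `f`
    intro c c'
    simp only [LinearMap.comp_apply, LinearMap.mulLeft_apply]
    rw [hf1]
    congr 1
    have h4 : β = γ * γ * σ := by
      rw [← hγ, div_mul_cancel₀ _ hσ0]
    rw [h4]
    field_simp
  · -- the degree
    have h1 : f ∣ G F n := hzero _ (hG k hkL S U n hS (by rw [← hn]; exact hkr) hkU hfix)
    have h2 := natDegree_le_of_dvd h1 (hGm F n).1.ne_zero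
    rw [(hGm F n).2] at h2
    rw [hrank]
    omega

end

end Pool.Agent.ORE
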